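import Pool.Agent.helper52.ZA.Resid

/-!
# The `(1, τ - 1)`-decomposition of weighted digraphs with few residues in the bad components
-/

namespace Pool.Agent.Results.MP_ec7f1b_co.Decomposition

open Pool.Agent.helper52.DJ Pool.Agent.helper52.DM Pool.Agent.helper52.ZA

/-- Let `τ ≥ 2` and let every dicut of the weighted digraph `(D, w)` have weight at least `τ`.  Let `ρ` and `ρ'` be
the sums of the residues modulo `τ` of the net outflows and of the net inflows of the vertices of bad components, divided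
by `τ`, and `n` the number of these vertices with net outflow not divisible by `τ`.  If `ρ (ρ - 2) ≤ τ` or
`4 (ρ - 2) ≤ τ` or the same for `ρ'` or `n ≤ τ + 3`, then `w = c + c'` where all dicuts have `c`-weight at
least `1` and `c'`-weight at least `τ - 1`. -/
theorem result {V A : Type*} [Fintype V] [DecidableEq V] [Fintype A] [DecidableEq A]
    (D : DG V A) (w : A → ℕ) (τ : ℕ) (hτ : 2 ≤ τ) (hcut : ∀ U, D.IsShore U → τ ≤ D.wt w U)
    (h : rhoBad D w τ * (rhoBad D w τ - 2) ≤ τ ∨ 4 * (rhoBad D w τ - 2) ≤ τ ∨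
      rhoBad' D w τ * (rhoBad' D w τ - 2) ≤ τ ∨ 4 * (rhoBad' D w τ - 2) ≤ τ ∨ (resBad D w τ).card ≤ τ + 3) :
    ∃ c c' : A → ℕ, (∀ a, w a = c a + c' a) ∧ (∀ U, D.IsShore U → 1 ≤ D.wt c U) ∧
      (∀ U, D.IsShore U → τ - 1 ≤ D.wt c' U) :=
  decomposition_bad D w τ hτ hcut h

end Pool.Agent.Results.MP_ec7f1b_co.Decomposition
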