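import Pool.Agent.helper52.DM.Stmt
import Pool.Agent.helper52.DJ.Repl

/-!
# Minimally non-packing clutters of minimal dijoins: few vertices with nonzero residue

`Pool.Agent.helper52.DJ.Repl` checks that the closed form of the clutter `C(D, w)` used here is the one obtained
from the clutter of minimal dijoins by deleting the arcs of weight `0` and replicating the others.
-/

namespace Pool.Agent.Results.MP_ec7f1b_co.FewResidues

open Pool.Agent.helper52.DJ Pool.Agent.helper52.DM

/-- If `C(D, w)` is minimally non-packing and no dicut has weight exactly `2`, then the minimum weight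
`τ` of a dicut is at least `3`; for every divisor `g ≥ 2` of `τ` at least `g + 4` vertices `v` have net outflow
`d(v)` not divisible by `g`; and for `1 ≤ k < τ` the sum `V` of `r (τ - r)` over the residues `r` modulo `τ` of the
numbers `k d(v)` satisfies `V ≥ 2 τ² - k τ` and `(V - τ²) (k (n + 1 - |S|) - τ) ≥ τ² (τ - k)`, where `n` is the
number of vertices with `r ≠ 0` and `S` is any set of such vertices in different components of the
graph of the arcs of positive weight. -/
theorem result {V A : Type*} [Fintype V] [DecidableEq V] [Fintype A] [DecidableEq A]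
    (D : DG V A) (w : A → ℕ) (hC : (D.clutter w).MinNonPacking)
    (h2 : ∀ U, D.IsShore U → D.wt w U ≠ 2) :
    ∃ τ : ℕ, 3 ≤ τ ∧ (∀ U, D.IsShore U → τ ≤ D.wt w U) ∧ (∃ U, D.IsShore U ∧ D.wt w U = τ) ∧
      (∀ g, 2 ≤ g → g ∣ τ → g + 4 ≤ (nres D w g).card) ∧
      ∀ k, 1 ≤ k → k < τ → 2 * (τ : ℤ) ^ 2 - k * τ ≤ vari D w τ k ∧
        ∀ S : Finset V, S ⊆ res D w τ k → (∀ u ∈ S, ∀ v ∈ S, Conn D w u v → u = v) →
          (τ : ℤ) ^ 2 * (τ - k)
            ≤ (vari D w τ k - (τ : ℤ) ^ 2) * (k * ((res D w τ k).card + 1 - S.card) - τ) :=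
  gap D w hC h2

end Pool.Agent.Results.MP_ec7f1b_co.FewResidues
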