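import Pool.Agent.helper52.ZA.Resid
import Pool.Agent.helper52.DJ.Repl

/-!
# Minimally non-packing clutters of minimal dijoins without a dicut of weight two

`Pool.Agent.helper52.DJ.Repl` checks that the closed form of the clutter `C(D, w)` used here is the one obtained
from the clutter of minimal dijoins by deleting the arcs of weight `0` and replicating the others.
-/

namespace Pool.Agent.Results.MP_ec7f1b_co.ResidueBound

open Pool.Agent.helper52.DJ Pool.Agent.helper52.DM Pool.Agent.helper52.ZA

/-- If `C(D, w)` is minimally non-packing and no dicut has weight exactly `2`, then the minimum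
weight `τ` of a dicut satisfies `τ ≥ 3`, `τ < ρ (ρ - 2)`, `τ < 4 (ρ - 2)`, and the same for `ρ'`, where `ρ`
and `ρ'` are the sums of the residues modulo `τ` of the net outflows and of the net inflows of the vertices of
bad components, divided by `τ`; and at least `8` and at least `τ + 4` vertices of bad components have net outflow not
divisible by `τ`.  A component of the graph of the arcs of positive weight is bad if it contains the tail `x`
of an arc of weight `0` and the head `y` of an arc of weight `0` such that `D` has no directed path from `x` to `y`. -/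
theorem result {V A : Type*} [Fintype V] [DecidableEq V] [Fintype A] [DecidableEq A]
    (D : DG V A) (w : A → ℕ) (hC : (D.clutter w).MinNonPacking)
    (h2 : ∀ U, D.IsShore U → D.wt w U ≠ 2) :
    ∃ τ : ℕ, 3 ≤ τ ∧ (∀ U, D.IsShore U → τ ≤ D.wt w U) ∧ (∃ U, D.IsShore U ∧ D.wt w U = τ) ∧
      (τ : ℤ) < rhoBad D w τ * (rhoBad D w τ - 2) ∧ (τ : ℤ) < 4 * (rhoBad D w τ - 2) ∧
      (τ : ℤ) < rhoBad' D w τ * (rhoBad' D w τ - 2) ∧ (τ : ℤ) < 4 * (rhoBad' D w τ - 2) ∧
      8 ≤ (resBad D w τ).card ∧ τ + 4 ≤ (resBad D w τ).card :=
  residue_bad D w hC h2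

end Pool.Agent.Results.MP_ec7f1b_co.ResidueBound
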