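import Pool.Agent.helper52.ZA.Final
import Pool.Agent.helper52.DJ.Repl

/-!
# Minimally non-packing clutters of minimal dijoins: the arcs of weight zero

`Pool.Agent.helper52.DJ.Repl` checks that the closed form of the clutter `C(D, w)` used here is the one obtained
from the clutter of minimal dijoins by deleting the arcs of weight `0` and replicating the others.
-/

namespace Pool.Agent.Results.MP_ec7f1b_co.ZeroArcs

open Pool.Agent.helper52.DJ Pool.Agent.helper52.DM Pool.Agent.helper52.ZA

/-- If `C(D, w)` is minimally non-packing, then there is a dicut shore `U` whose set of outgoing arcs of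
positive weight is nonempty and inclusion-minimal, such that every component of the graph of the arcs of positive weight with vertices `u` in `U` and `v` outside `U` contains
the head of an arc `b` of weight zero with head in `U`, and the tail of an arc `a` of weight zero with
tail outside `U` (so `D` has no directed path from the tail of `a` to the head of `b`). -/
theorem result {V A : Type*} [Fintype V] [DecidableEq V] [Fintype A] [DecidableEq A]
    (D : DG V A) (w : A → ℕ) (hC : (D.clutter w).MinNonPacking) :
    ∃ U, D.IsShore U ∧ (posOut D w U).Nonempty ∧
      (∀ U', D.IsShore U' → posOut D w U' ⊆ posOut D w U → posOut D w U' = posOut D w U) ∧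
      ∀ u ∈ U, ∀ v, v ∉ U → Conn D w u v →
        (∃ b, w b = 0 ∧ Conn D w u (D.head b) ∧ D.head b ∈ U) ∧
          ∃ a, w a = 0 ∧ Conn D w u (D.tail a) ∧ D.tail a ∉ U :=
  zero_arcs' D w hC

end Pool.Agent.Results.MP_ec7f1b_co.ZeroArcs
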